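import Pool.Agent.MP_d13902_co.Low5
import Pool.Agent.MP_d13902_co.Chrom
import Pool.Agent.MP_d13902_co_B.A5

/-!
# MP_d13902_co: the real minrank of `G(n, 1/2)` is `(1 + o(1)) n / (2 log₂ n) = (1 + o(1)) χ(complement)`, w.h.p.
-/

set_option autoImplicit false

namespace Pool.Agent.Results.MP_d13902_co.SharpAsymptotics

open Filter
open scoped Classical

/-- The real matrix `M` represents the graph `G`: the diagonal entries are nonzero and the entries at the pairs of distinct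
nonadjacent vertices are `0`. -/
def Represents {n : ℕ} (M : Matrix (Fin n) (Fin n) ℝ) (G : SimpleGraph (Fin n)) : Prop :=
  (∀ i, M i i ≠ 0) ∧ ∀ i j, i ≠ j → ¬ G.Adj i j → M i j = 0

/-- `r` is the minrank of `G` over the reals: the least rank of a real matrix which represents `G`. -/
def IsMinrank {n : ℕ} (G : SimpleGraph (Fin n)) (r : ℕ) : Prop :=
  IsLeast {r : ℕ | ∃ M : Matrix (Fin n) (Fin n) ℝ, Represents M G ∧ M.rank = r} r

/-- The good graphs: the minrank `r` of `G` and the chromatic number `c` of the complement of `G` satisfy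
`(1 - ε) c ≤ r ≤ c` and `(1 - ε) n / (2 log₂ n) ≤ r ≤ c ≤ (1 + ε) n / (2 log₂ n)`. -/
def Good (ε : ℝ) {n : ℕ} (G : SimpleGraph (Fin n)) : Prop :=
  ∃ r c : ℕ, IsMinrank G r ∧ Gᶜ.chromaticNumber = c ∧ r ≤ c ∧ (1 - ε) * (c : ℝ) ≤ r ∧
    (1 - ε) * (n / (2 * Real.logb 2 n)) ≤ (r : ℝ) ∧ (c : ℝ) ≤ (1 + ε) * (n / (2 * Real.logb 2 n))

theorem isMinrank_minrank {n : ℕ} (G : SimpleGraph (Fin n)) :
    IsMinrank G (Pool.Agent.MP_d13902_co.minrank G) := by
  refine ⟨?_, ?_⟩
  · obtain ⟨M, h1, h2, h3⟩ := Pool.Agent.MP_d13902_co.minrank_mem G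
    exact ⟨M, ⟨h1, h2⟩, h3⟩
  · rintro r ⟨M, ⟨h1, h2⟩, h3⟩
    exact Nat.sInf_le ⟨M, h1, h2, h3⟩

theorem chrom_eq {n : ℕ} (G : SimpleGraph (Fin n)) :
    Gᶜ.chromaticNumber = ((Gᶜ.chromaticNumber.toNat : ℕ) : ℕ∞) := by
  have hne : Gᶜ.chromaticNumber ≠ ⊤ :=
    SimpleGraph.chromaticNumber_ne_top_iff_exists.2 ⟨_, Gᶜ.colorable_of_fintype⟩
  exact (ENat.natCast_toNat hne).symm

theorem good_of {n : ℕ} (hn : 1 ≤ n) (ε δ : ℝ) (hδ0 : 0 < δ) (hδε : δ ≤ ε / 4)
    (G : SimpleGraph (Fin n))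
    (h4 : (1 - δ) * (n / (2 * Real.logb 2 n)) ≤ (Pool.Agent.MP_d13902_co.minrank G : ℝ))
    (h5 : ((Gᶜ.chromaticNumber.toNat : ℕ) : ℝ) ≤ (1 + δ) * (n / (2 * Real.logb 2 n))) :
    Good ε G := by
  have hx : 0 ≤ (n : ℝ) / (2 * Real.logb 2 n) := by
    apply div_nonneg (Nat.cast_nonneg _)
    have : 0 ≤ Real.logb 2 n := Real.logb_nonneg (by norm_num) (by exact_mod_cast hn)
    linarith
  refine ⟨_, _, isMinrank_minrank G, chrom_eq G,
    Pool.Agent.MP_d13902_co.minrank_le_chromatic G, ?_, ?_, ?_⟩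
  · have h6 : (1 - ε) * (1 + δ) ≤ 1 - δ := by nlinarith
    by_cases hε1 : ε ≤ 1
    · calc (1 - ε) * ((Gᶜ.chromaticNumber.toNat : ℕ) : ℝ)
          ≤ (1 - ε) * ((1 + δ) * ((n : ℝ) / (2 * Real.logb 2 n))) :=
            mul_le_mul_of_nonneg_left h5 (by linarith)
        _ = ((1 - ε) * (1 + δ)) * ((n : ℝ) / (2 * Real.logb 2 n)) := by ring
        _ ≤ (1 - δ) * ((n : ℝ) / (2 * Real.logb 2 n)) := mul_le_mul_of_nonneg_right h6 hx
        _ ≤ _ := h4
    · have hχ : (0 : ℝ) ≤ ((Gᶜ.chromaticNumber.toNat : ℕ) : ℝ) := Nat.cast_nonneg _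
      have : (1 - ε) * ((Gᶜ.chromaticNumber.toNat : ℕ) : ℝ) ≤ 0 :=
        mul_nonpos_of_nonpos_of_nonneg (by linarith) hχ
      exact this.trans (Nat.cast_nonneg _)
  · refine le_trans (mul_le_mul_of_nonneg_right ?_ hx) h4
    linarith
  · refine h5.trans (mul_le_mul_of_nonneg_right ?_ hx)
    linarith

/-- For every `ε > 0` the probability that `G = G(n, 1/2)` (all graphs on `n` labelled vertices have the same probability)
satisfies `Good ε`, that is `(1 - ε) χ ≤ minrank ≤ χ` and `(1 - ε) n / (2 log₂ n) ≤ minrank ≤ χ ≤ (1 + ε) n / (2 log₂ n)`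
(`χ` the chromatic number of the complement, minrank over the reals), tends to `1` as `n → ∞`. -/
theorem result (ε : ℝ) (hε : 0 < ε) :
    Tendsto (fun n : ℕ => ((Finset.univ.filter (fun G : SimpleGraph (Fin n) => Good ε G)).card : ℝ) /
      (Fintype.card (SimpleGraph (Fin n)) : ℝ)) atTop (nhds 1) := by
  set δ : ℝ := min (ε / 4) (1 / 4) with hδ
  have hδ0 : 0 < δ := by rw [hδ]; positivity
  have hδε : δ ≤ ε / 4 := min_le_left _ _
  have hlow := Pool.Agent.MP_d13902_co.minrank_lower' δ hδ0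
  have hup := Pool.Agent.MP_d13902_co_B.chromatic_upper δ hδ0
  let p : (n : ℕ) → SimpleGraph (Fin n) → Prop := fun n G =>
    (1 - δ) * (n / (2 * Real.logb 2 n)) ≤ (Pool.Agent.MP_d13902_co.minrank G : ℝ)
  let q : (n : ℕ) → SimpleGraph (Fin n) → Prop := fun n G =>
    ((Gᶜ.chromaticNumber.toNat : ℕ) : ℝ) ≤ (1 + δ) * (n / (2 * Real.logb 2 n))
  have hp : Tendsto (fun n : ℕ => 1 - ((Finset.univ.filter (p n)).card : ℝ) /
      (Fintype.card (SimpleGraph (Fin n)) : ℝ)) atTop (nhds 0) := by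
    have := hlow.const_sub 1
    simpa only [sub_self, Finset.filter_congr_decidable] using this
  have hq : Tendsto (fun n : ℕ => 1 - ((Finset.univ.filter (q n)).card : ℝ) /
      (Fintype.card (SimpleGraph (Fin n)) : ℝ)) atTop (nhds 0) := by
    have := hup.const_sub 1
    simpa only [sub_self, Finset.filter_congr_decidable] using this
  have hpq := hp.add hq
  rw [add_zero] at hpq
  refine Pool.Agent.MP_d13902_co.tendsto_frac (p := fun n G => Good ε G) hpq ?_
  filter_upwards [eventually_ge_atTop 1] with n hn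
  have hc0 : (0 : ℝ) < (Fintype.card (SimpleGraph (Fin n)) : ℝ) := by
    exact_mod_cast Fintype.card_pos
  have e1 := Pool.Agent.MP_d13902_co.card_compl_frac (p n)
  have e2 := Pool.Agent.MP_d13902_co.card_compl_frac (q n)
  have e3 : (1 - ((Finset.univ.filter (p n)).card : ℝ) / (Fintype.card (SimpleGraph (Fin n)) : ℝ) +
      (1 - ((Finset.univ.filter (q n)).card : ℝ) / (Fintype.card (SimpleGraph (Fin n)) : ℝ))) *
      (Fintype.card (SimpleGraph (Fin n)) : ℝ) =
      ((Finset.univ.filter (fun G => ¬ p n G)).card : ℝ) +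
        ((Finset.univ.filter (fun G => ¬ q n G)).card : ℝ) := by
    rw [e1, e2]
    field_simp
    ring
  rw [e3]
  have hsub : (Finset.univ.filter (fun G : SimpleGraph (Fin n) => ¬ Good ε G)) ⊆
      Finset.univ.filter (fun G => ¬ p n G) ∪ Finset.univ.filter (fun G => ¬ q n G) := by
    intro G hG
    rw [Finset.mem_filter] at hG
    rw [Finset.mem_union, Finset.mem_filter, Finset.mem_filter]
    by_contra hcon
    rw [not_or] at hcon
    have h1 : p n G := by
      by_contra h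
      exact hcon.1 ⟨Finset.mem_univ _, h⟩
    have h2 : q n G := by
      by_contra h
      exact hcon.2 ⟨Finset.mem_univ _, h⟩
    exact hG.2 (good_of hn ε δ hδ0 hδε G h1 h2)
  have := (Finset.card_le_card hsub).trans (Finset.card_union_le _ _)
  exact_mod_cast this

end Pool.Agent.Results.MP_d13902_co.SharpAsymptotics
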